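import Mathlib
import Pool.Agent.X116.Theta3

/-!
# Vishnyakova's conjecture on the real zeros of truncated theta-type polynomials, odd case

For odd `n` the polynomial `p_n(z) = ∑_{k ≤ n} (-1)^k (2k+1) z^(k(k+1))` has exactly two real zeros,
and both are simple.
-/

open Polynomial

namespace Pool.Agent.Results.MP_27c522_an.OddTwoZeros

/-- The polynomial `p_n(z) = ∑_{k ≤ n} (-1)^k (2k+1) z^(k(k+1))`. -/
noncomputable def p (n : ℕ) : ℝ[X] :=
  ∑ k ∈ Finset.range (n + 1), C ((-1 : ℝ) ^ k * (2 * k + 1)) * X ^ (k * (k + 1))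

/-- For every odd `n ≥ 3` the polynomial `p_n` has exactly two real zeros, and exactly two also
when zeros are counted with multiplicity. -/
theorem result : ∀ n : ℕ, 3 ≤ n → Odd n →
    {x : ℝ | (p n).eval x = 0}.ncard = 2 ∧ Multiset.card (p n).roots = 2 := by
  intro n _ hn
  obtain ⟨s, hs0, hs⟩ := Pool.Agent.X116.Theta.roots_odd hn
  have hp : p n = ∑ j ∈ Finset.range (n + 1), C ((-1 : ℝ) ^ j * (2 * j + 1)) * X ^ (j ^ 2 + j) := by
    unfold p
    refine Finset.sum_congr rfl fun j _ => ?_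
    rw [show j * (j + 1) = j ^ 2 + j by ring]
  have hne : p n ≠ 0 := by
    rw [hp]
    exact Pool.Agent.X116.Theta.ne_zero n
  rw [← hp] at hs
  refine ⟨?_, by rw [hs]; rfl⟩
  have hset : {x : ℝ | (p n).eval x = 0} = {s, -s} := by
    ext x
    have h1 : x ∈ (p n).roots ↔ (p n).eval x = 0 := by
      rw [mem_roots hne]
      rfl
    rw [hs] at h1
    simp only [Set.mem_ofPred_eq, ← h1]
    simp
  rw [hset, Set.ncard_pair]
  intro h
  linarith

end Pool.Agent.Results.MP_27c522_an.OddTwoZeros
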